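import Pool.Agent.Y922.ZF.Del

/-!
# `L`-functions of motives with coefficients in a number field at almost all algebraic points

Let `M_1, …, M_r` be motives with coefficients in the number field `E`, with `L`-functions
`L(s, M_i) = ∑ a_i(n) n^(-s)` in `E ⊗ ℂ`, that is, a vector of functions `L i τ`, `τ : E → ℂ`. Deligne's conjecture
says that at critical integers `m` the vector `L(m, M_i)` is `e ⋅ (2πi)^(m n) c^±(M_i)` with `e ∈ E`. We show that at
almost all algebraic points `s` all numbers `L i τ (j s)`, `j ≤ J`, together with powers `(2π)^s`, `Γ(s)` and the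
`ψ^(k)(s)`, satisfy no relation of bounded degree and polynomially bounded height relative to arbitrary constants; in
particular `L(s, M_i)` is not `e ⋅ c` with `e ∈ E` of height at most `T^A` and any given `c ∈ E ⊗ ℂ`. The only
assumption is that the vectors `(a_i(p))_i`, `p` large, span `E^r` over `ℚ`.
-/

set_option autoImplicit false

open NumberField

namespace Pool.Agent.Results.MP_100fe7_nt.CoefficientField

/-- The elements of the number field `F` with image in `K` which are quotients of two integers of `F` all of whose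
conjugates have absolute value at most `T`. -/
def Points (F : Type) [Field F] [NumberField F] (ι : F →+* ℂ) (K : Set ℂ) (T : ℝ) : Set F :=
  {x | ι x ∈ K ∧ ∃ a b : 𝓞 F, b ≠ 0 ∧ (∀ φ : F →+* ℂ, ‖φ a‖ ≤ T ∧ ‖φ b‖ ≤ T) ∧ x = a / b}
/-- The functions `L i τ` are given by the Dirichlet series `∑ τ(a_i(n)) n^(-s)`, absolutely convergent, for `Re s > c`;
the set `U` is connected, contains all large real numbers and none of `0, -1, -2, …`, and all functions `L i τ` are
analytic at the points `j s`, `s ∈ U`, `1 ≤ j ≤ J`. -/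
structure Continued {E : Type} [Field E] [NumberField E] {r : ℕ} (a : Fin r → ℕ → E) (c : ℝ)
    (L : Fin r → (E →+* ℂ) → ℂ → ℂ) (J : ℕ) (U : Set ℂ) : Prop where
  summable : ∀ (i : Fin r) (τ : E →+* ℂ) (s : ℂ), c < s.re → LSeriesSummable (fun n => τ (a i n)) s
  eq_series : ∀ (i : Fin r) (τ : E →+* ℂ) (s : ℂ), c < s.re → L i τ s = LSeries (fun n => τ (a i n)) s
  connected : IsPreconnected U
  real : ∀ᶠ s : ℝ in Filter.atTop, (s : ℂ) ∈ U
  no_pole : ∀ s ∈ U, ∀ k : ℕ, s ≠ -k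
  analytic : ∀ (i : Fin r) (τ : E →+* ℂ) (j : Fin J), ∀ s ∈ U, AnalyticAt ℂ (L i τ) ((((j : ℕ) + 1 : ℕ) : ℂ) * s)

/-- For every `N` the vectors `(a_1(p), …, a_r(p))`, `p > N` prime, span `E^r` over `ℚ`. -/
def Spanning {E : Type} [Field E] [NumberField E] {r : ℕ} (a : Fin r → ℕ → E) : Prop :=
  ∀ N : ℕ, Submodule.span ℚ {x : Fin r → E | ∃ p : ℕ, p.Prime ∧ N < p ∧ x = fun i => a i p} = ⊤

/-- The numbers `β_l^s`, `Γ(s)`, `ψ(s), ψ'(s), …, ψ^(w-1)(s)` and `L i τ (j s)`, `1 ≤ j ≤ J`. -/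
noncomputable def values {E : Type} [Field E] [NumberField E] {h r : ℕ} (β : Fin h → ℝ)
    (L : Fin r → (E →+* ℂ) → ℂ → ℂ) (J w : ℕ) (s : ℂ) :
    Fin h ⊕ (Unit ⊕ (Fin w ⊕ ((Fin r × (E →+* ℂ)) × Fin J))) → ℂ
  | Sum.inl l => (β l : ℂ) ^ s
  | Sum.inr (Sum.inl _) => Complex.Gamma s
  | Sum.inr (Sum.inr (Sum.inl k)) => iteratedDeriv k Complex.digamma s
  | Sum.inr (Sum.inr (Sum.inr x)) => L x.1.1 x.1.2 ((((x.2 : ℕ) + 1 : ℕ) : ℂ) * s)

/-- The `n`-tuples `t` of points of `F` for which there is a polynomial `P` of degree at most `d` in each variable, with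
coefficients of the form `∑ ξ_i ι(c_i)`, where the `c_i` are integers of `F` all of whose conjugates have absolute value
at most `T ^ A`, such that the value of `P` at the numbers `values β L J w (t_j)`, `j ≤ n`, is at most `T ^ (-B)` times the
absolute value of some nonzero coefficient of `P`. -/
def Exceptional {E : Type} [Field E] [NumberField E] {h r : ℕ} (β : Fin h → ℝ) (L : Fin r → (E →+* ℂ) → ℂ → ℂ) (J w : ℕ) (n d : ℕ) {g : ℕ} (F : Type) [Field F] [NumberField F] (ι : F →+* ℂ)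
    (ξ : Fin g → ℂ) (K : Set ℂ) (A B T : ℝ) : Set (Fin n → F) :=
  {t | (∀ j, t j ∈ Points F ι K T) ∧ ∃ P : MvPolynomial (Fin n × (Fin h ⊕ (Unit ⊕ (Fin w ⊕ ((Fin r × (E →+* ℂ)) × Fin J))))) ℂ,
    (∀ x, P.degreeOf x ≤ d) ∧
    (∀ s, ∃ c : Fin g → 𝓞 F, (∀ i (φ : F →+* ℂ), ‖φ (c i)‖ ≤ T ^ A) ∧ P.coeff s = ∑ i, ξ i * ι (c i)) ∧
    ∃ s₀, P.coeff s₀ ≠ 0 ∧
      ‖MvPolynomial.aeval (fun x : Fin n × (Fin h ⊕ (Unit ⊕ (Fin w ⊕ ((Fin r × (E →+* ℂ)) × Fin J)))) => values β L J w (ι (t x.1)) x.2) P‖ ≤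
        T ^ (-B) * ‖P.coeff s₀‖}

/-- Let `β_1, …, β_h` be positive real numbers such that `∏ β_l ^ v_l` is irrational for all nonzero `v ∈ ℤ^h` (for
instance `h = 1` and `β_1 = 2π`), let `E` be a number field, `a_1, …, a_r` sequences in `E` with `Spanning a`, `L i τ`
and `U` as in `Continued`, and let `K` be a compact subset of `U`. For all `w`, `m`, `n`, `g`, `d`, `A` and `ε > 0` there
are `B`, `C`, `T₀` such that for every number field `F` of degree at most `m`, every embedding of `F` in `ℂ`, all complex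
numbers `ξ_1, …, ξ_g` and all `T ≥ T₀` the number of exceptional `n`-tuples is at most `C T^ε N^(n - 1)`, where `N` is
the number of points. -/
theorem result {E : Type} [Field E] [NumberField E] {h r : ℕ} (β : Fin h → ℝ) (hβ0 : ∀ l, 0 < β l)
    (hβ : ∀ v : Fin h → ℤ, (∃ x : ℚ, ∏ l, β l ^ v l = x) → v = 0) (a : Fin r → ℕ → E) (ha : Spanning a) (c : ℝ)
    (L : Fin r → (E →+* ℂ) → ℂ → ℂ) (J : ℕ) (U : Set ℂ) (hc : Continued a c L J U) (w m n g d : ℕ) (K : Set ℂ)
    (hK : IsCompact K) (hKU : K ⊆ U) (A ε : ℝ) (hε : 0 < ε) :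
    ∃ B C T₀ : ℝ, ∀ (F : Type) [Field F] [NumberField F], Module.finrank ℚ F ≤ m → ∀ (ι : F →+* ℂ) (ξ : Fin g → ℂ)
      (T : ℝ), T₀ ≤ T → (Exceptional β L J w n d F ι ξ K A B T).Finite ∧
        ((Exceptional β L J w n d F ι ξ K A B T).ncard : ℝ) ≤ C * T ^ ε * ((Points F ι K T).ncard : ℝ) ^ (n - 1) := by
  classical
  obtain ⟨B, C, T₀, hC, hT₀, H⟩ := Y124.excNF (h := Fin g) m n d (Y922.ZF.vE β (fun y : Fin r × (E →+* ℂ) => L y.1 y.2) J w) K (fun g' => Y922.ZF.oneE g' β hβ0 hβ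
      (fun (y : Fin r × (E →+* ℂ)) (n : ℕ) => y.2 (a y.1 n)) (Y922.ZF.PN_field a ha) c (fun y => hc.summable y.1 y.2)
      (fun y => L y.1 y.2) (fun y => hc.eq_series y.1 y.2) J U hc.connected hc.real hc.no_pole
      (fun y => hc.analytic y.1 y.2) w K hK hKU) A ε hε
  refine ⟨B, C, T₀, fun F _ _ hF ι ξ T hT => ?_⟩
  have hT0 : 0 ≤ T := by linarith
  have hP : Points F ι K T = {x : F | Y120.HtLe F T x ∧ ι x ∈ K} := by
    ext x
    constructor
    · rintro ⟨h1, a, b, hb, hab, hx⟩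
      exact ⟨⟨a, b, hb, Y120.house_le F hT0 fun φ => (hab φ).1, Y120.house_le F hT0 fun φ => (hab φ).2, hx⟩, h1⟩
    · rintro ⟨⟨a, b, hb, ha, hb', hx⟩, h1⟩
      exact ⟨h1, a, b, hb, fun φ => ⟨(Y120.house_ge F _ φ).trans ha, (Y120.house_ge F _ φ).trans hb'⟩, hx⟩
  have hval : ∀ (s : ℂ) y, values β L J w s y = (Y922.ZF.vE β (fun y : Fin r × (E →+* ℂ) => L y.1 y.2) J w) s y := by
    intro s y
    rcases y with l | (u | (k | x)) <;> rfl
  have hsub : Exceptional β L J w n d F ι ξ K A B T ⊆ Y124.ExcNF n d F ι ξ ((Y922.ZF.vE β (fun y : Fin r × (E →+* ℂ) => L y.1 y.2) J w)) K A B T := by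
    rintro t ⟨ht, P, hPd, hPc, s₀, hs₀, hs⟩
    refine ⟨fun j => ?_, P, hPd, hPc, s₀, hs₀, ?_⟩
    · have h1 := ht j
      rw [hP] at h1
      exact h1
    · simp only [hval] at hs
      exact hs
  obtain ⟨h1, h2⟩ := H F hF ι ξ T hT
  refine ⟨h1.subset hsub, ?_⟩
  rw [hP]
  exact le_trans (by exact_mod_cast Set.ncard_le_ncard hsub h1) h2

end Pool.Agent.Results.MP_100fe7_nt.CoefficientField
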