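import Pool.Agent.Y456.DP.Tw
import Pool.Agent.Y922.ZF.Art

/-!
# Relations of Deligne's type near critical points: conjugates, Dirichlet twists and Tate twists together

Let `M_1, …, M_f` be motives of weight `w` with coefficients in a number field `E`, with `L`-functions
`L(s, M_i) = (L_σ(s, M_i))_σ` with values in `E ⊗ ℂ = ℂ ^ Hom(E, ℂ)`. At a critical integer `μ` Deligne's conjecture says
`L_σ(μ, M_i) = σ(e) (2πi)^(μ n^±) c_σ^±(M_i)` with one `e` in `E` for all `σ`; the periods are those of all critical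
integers of the same parity, and (up to Gauss sums) those of all the twists `M_i ⊗ χ` by Dirichlet characters of the same
parity. So at `s = 0` the numbers `L_σ(s + μ, M_i ⊗ χ)`, where `μ` runs through the critical integers, `χ` through
characters and `σ` through all embeddings, satisfy very many relations, of degree two and even of degree one relative to
the periods as constants, and one of them is `(2π)^s` with a shift.

We prove for all `L`-functions with continuation and pure coefficients which are not degenerate at the primes in any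
residue class, that such relations are rare at the algebraic points `s` near `0` (or in any compact set): relative to
arbitrary constants, the numbers `β^s` and all the `L_σ^(k)(s + μ, M_i ⊗ χ)` satisfy approximate polynomial relations of
bounded degree and polynomially bounded height only at few algebraic points (tuples of points) `s`.

The condition at the primes: `‖σ(a_i(p))‖ ≤ C p^(w/2)` (purity), and no nontrivial combination
`∑ c_(i σ) σ(a_i(p)) p^(-w/2)` with constants `c` tends to zero along the primes `p ≡ u mod q`, for any unit `u`. By the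
prime number theorem of Rankin and Selberg this is true for the cuspidal automorphic `L`-functions whose conjugates
and twists are different, and it is what the Sato-Tate conjecture predicts. It implies that there are no relations
even with coefficients which are polynomials in `log p` and shifts by powers of `p`, see `Y456.DP.PP_nd`.
-/

set_option autoImplicit false

open NumberField Filter Topology

namespace Pool.Agent.Results.MP_100fe7_nt.ConjugatesTwistsShifts

/-- The elements of the number field `F` with image in `K` which are quotients of two integers of `F` all of whose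
conjugates have absolute value at most `T`. -/
def Points (F : Type) [Field F] [NumberField F] (ι : F →+* ℂ) (K : Set ℂ) (T : ℝ) : Set F :=
  {x | ι x ∈ K ∧ ∃ a b : 𝓞 F, b ≠ 0 ∧ (∀ φ : F →+* ℂ, ‖φ a‖ ≤ T ∧ ‖φ b‖ ≤ T) ∧ x = a / b}

/-- The sequences `a_1, …, a_f` with values in `E` are pure of weight `w` and not degenerate in the residue classes
modulo `q`: the conjugates of `a_i(p)` are `O(p^(w/2))`, and for no unit `u` modulo `q` there is a nontrivial combination
of the numbers `σ(a_i(p)) p^(-w/2)`, `σ : E → ℂ`, with constant coefficients, which tends to zero along the primes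
`p ≡ u`. -/
def Nondegenerate {E : Type} [Field E] [NumberField E] {f : ℕ} (a : Fin f → ℕ → E) (w : ℝ) (q : ℕ) : Prop :=
  (∃ C : ℝ, ∀ (i : Fin f) (σ : E →+* ℂ) (p : ℕ), p.Prime → ‖σ (a i p)‖ ≤ C * (p : ℝ) ^ (w / 2)) ∧
  ∀ (u : (ZMod q)ˣ) (c : Fin f × (E →+* ℂ) → ℂ), c ≠ 0 →
    ¬ Tendsto (fun p : ℕ => (∑ z, c z * z.2 (a z.1 p)) / (((p : ℝ) ^ (w / 2) : ℝ) : ℂ))
      (atTop ⊓ 𝓟 {p : ℕ | p.Prime ∧ (p : ZMod q) = u}) (𝓝 0)

/-- `L i σ l` is the function `L_σ(s, M_i ⊗ χ_l)`: it is given by the Dirichlet series `∑ χ_l(n) σ(a_i(n)) n^(-s)`,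
absolutely convergent, for `Re s > c`, and the functions `L_σ(s + μ_j, M_i ⊗ χ_l)` are analytic at the points of the
connected set `U`, which contains all large real numbers. -/
structure Continued {E : Type} [Field E] [NumberField E] {f q t r : ℕ} (a : Fin f → ℕ → E)
    (χ : Fin t → DirichletCharacter ℂ q) (μ : Fin r → ℤ) (c : ℝ) (L : Fin f → (E →+* ℂ) → Fin t → ℂ → ℂ)
    (U : Set ℂ) : Prop where
  summable : ∀ (i : Fin f) (σ : E →+* ℂ) (l : Fin t) (s : ℂ), c < s.re →
    LSeriesSummable (fun n : ℕ => χ l (n : ZMod q) * σ (a i n)) s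
  eq_series : ∀ (i : Fin f) (σ : E →+* ℂ) (l : Fin t) (s : ℂ), c < s.re →
    L i σ l s = LSeries (fun n : ℕ => χ l (n : ZMod q) * σ (a i n)) s
  connected : IsPreconnected U
  real : ∀ᶠ s : ℝ in atTop, (s : ℂ) ∈ U
  analytic : ∀ (i : Fin f) (σ : E →+* ℂ) (l : Fin t) (j : Fin r), ∀ s ∈ U, AnalyticAt ℂ (L i σ l) (s + μ j)

/-- The numbers `β_m^s` and the derivatives of orders less than `v` of `L_σ(s, M_i ⊗ χ_l)` at the points `s + μ_j`. -/
noncomputable def values {E : Type} [Field E] {f t r h : ℕ} (μ : Fin r → ℤ) (β : Fin h → ℝ)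
    (L : Fin f → (E →+* ℂ) → Fin t → ℂ → ℂ) (v : ℕ) (s : ℂ) :
    Fin h ⊕ ((Fin r × ((Fin f × (E →+* ℂ)) × Fin t)) × Fin v) → ℂ
  | Sum.inl l => (β l : ℂ) ^ s
  | Sum.inr x => iteratedDeriv x.2 (L x.1.2.1.1 x.1.2.1.2 x.1.2.2) (s + μ x.1.1)

/-- The `n`-tuples `x` of points of `F` for which there is a polynomial `P` of degree at most `d` in each variable, with
coefficients of the form `∑ ξ_i ι(c_i)`, where the `c_i` are integers of `F` all of whose conjugates have absolute value
at most `T ^ A`, such that the value of `P` at the numbers `values μ β L v (x_j)`, `j ≤ n`, is at most `T ^ (-B)` times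
the absolute value of some nonzero coefficient of `P`. -/
def Exceptional {E : Type} [Field E] {f t r h : ℕ} (μ : Fin r → ℤ) (β : Fin h → ℝ)
    (L : Fin f → (E →+* ℂ) → Fin t → ℂ → ℂ) (v n d : ℕ) {g : ℕ} (F : Type) [Field F] [NumberField F]
    (ι : F →+* ℂ) (ξ : Fin g → ℂ) (K : Set ℂ) (A B T : ℝ) : Set (Fin n → F) :=
  {x | (∀ j, x j ∈ Points F ι K T) ∧
    ∃ P : MvPolynomial (Fin n × (Fin h ⊕ ((Fin r × ((Fin f × (E →+* ℂ)) × Fin t)) × Fin v))) ℂ,
    (∀ y, P.degreeOf y ≤ d) ∧
    (∀ s, ∃ c : Fin g → 𝓞 F, (∀ i (φ : F →+* ℂ), ‖φ (c i)‖ ≤ T ^ A) ∧ P.coeff s = ∑ i, ξ i * ι (c i)) ∧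
    ∃ s₀, P.coeff s₀ ≠ 0 ∧
      ‖MvPolynomial.aeval (fun y : Fin n × (Fin h ⊕ ((Fin r × ((Fin f × (E →+* ℂ)) × Fin t)) × Fin v)) =>
        values μ β L v (ι (x y.1)) y.2) P‖ ≤ T ^ (-B) * ‖P.coeff s₀‖}

/-- Let `a_1, …, a_f` be sequences in the number field `E`, pure of weight `w` and not degenerate in the residue classes
modulo `q`, let `χ_1, …, χ_t` be distinct Dirichlet characters modulo `q` and `μ_1, …, μ_r` distinct integers. Let `L` be
the functions `L_σ(s, M_i ⊗ χ_l)` of all the twists and conjugates, continued as in `Continued`, let `β_1, …, β_h` be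
positive real numbers such that `∏ β_m ^ v_m` is irrational for all nonzero `v ∈ ℤ^h` (for instance `h = 1` and `β_1 = π`
or `2 π`), and let `K` be a compact subset of `U`. For all `v`, `m`, `n`, `g`, `d`, `A` and `ε > 0` there are `B`, `C`,
`T₀` such that for every number field `F` of degree at most `m`, every embedding of `F` in `ℂ`, all complex numbers
`ξ_1, …, ξ_g` and all `T ≥ T₀` the number of exceptional `n`-tuples is at most `C T^ε N^(n - 1)`, where `N` is the number
of points. -/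
theorem result (E : Type) [Field E] [NumberField E] {f q t r h : ℕ} (a : Fin f → ℕ → E) (w : ℝ)
    (ha : Nondegenerate a w q) (χ : Fin t → DirichletCharacter ℂ q) (hχ : Function.Injective χ) (μ : Fin r → ℤ)
    (hμ : Function.Injective μ) (c : ℝ) (L : Fin f → (E →+* ℂ) → Fin t → ℂ → ℂ) (U : Set ℂ)
    (hc : Continued a χ μ c L U) (β : Fin h → ℝ) (hβ0 : ∀ l, 0 < β l)
    (hβ : ∀ v : Fin h → ℤ, (∃ x : ℚ, ∏ l, β l ^ v l = x) → v = 0) (v m n g d : ℕ) (K : Set ℂ) (hK : IsCompact K)
    (hKU : K ⊆ U) (A ε : ℝ) (hε : 0 < ε) :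
    ∃ B C T₀ : ℝ, ∀ (F : Type) [Field F] [NumberField F], Module.finrank ℚ F ≤ m → ∀ (ι : F →+* ℂ) (ξ : Fin g → ℂ)
      (T : ℝ), T₀ ≤ T → (Exceptional μ β L v n d F ι ξ K A B T).Finite ∧
        ((Exceptional μ β L v n d F ι ξ K A B T).ncard : ℝ) ≤ C * T ^ ε * ((Points F ι K T).ncard : ℝ) ^ (n - 1) := by
  classical
  obtain ⟨⟨C₁, hC₁⟩, hnd⟩ := ha
  -- the sequences at the primes
  let b : Fin f × (E →+* ℂ) → ℕ → ℂ := fun z p => z.2 (a z.1 p)
  have hND : Y456.DP.ND Set.univ (w / 2) (fun (z : (Fin f × (E →+* ℂ)) × Fin t) (p : ℕ) =>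
      χ z.2 (p : ZMod q) * b z.1 p) := by
    refine Y456.DP.ND_tw χ hχ (w / 2) b fun u c' hc' hT => hnd u c' hc' ?_
    exact hT
  let a' : Fin r × ((Fin f × (E →+* ℂ)) × Fin t) → ℕ → ℂ := fun y n =>
    χ y.2.2 (n : ZMod q) * y.2.1.2 (a y.2.1.1 n) * (n : ℂ) ^ (-((μ y.1 : ℤ) : ℂ))
  have hPP : Y922.ZF.PP a' := by
    have := Y456.DP.PP_nd (w / 2) C₁ (fun (z : (Fin f × (E →+* ℂ)) × Fin t) (p : ℕ) =>
      χ z.2 (p : ZMod q) * b z.1 p) (fun z p hp => by
        rw [norm_mul]
        calc ‖χ z.2 (p : ZMod q)‖ * ‖b z.1 p‖ ≤ 1 * ‖b z.1 p‖ := by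
              gcongr
              exact DirichletCharacter.norm_le_one _ _
          _ = ‖b z.1 p‖ := one_mul _
          _ ≤ _ := hC₁ z.1.1 z.1.2 p hp) hND (fun i : Fin r => ((μ i : ℤ) : ℝ))
      (fun i j hij => hμ (by
        have h : ((μ i : ℤ) : ℝ) = ((μ j : ℤ) : ℝ) := hij
        exact_mod_cast h))
    have e : a' = fun (y : Fin r × ((Fin f × (E →+* ℂ)) × Fin t)) (n : ℕ) =>
        (fun (z : (Fin f × (E →+* ℂ)) × Fin t) (p : ℕ) => χ z.2 (p : ZMod q) * b z.1 p) y.2 n *
          (n : ℂ) ^ (-((((μ y.1 : ℤ) : ℝ)) : ℂ)) := by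
      funext y n
      simp only [a', b]
      push_cast
      rfl
    rw [e]
    exact this
  let L' : Fin r × ((Fin f × (E →+* ℂ)) × Fin t) → ℂ → ℂ := fun y s =>
    L y.2.1.1 y.2.1.2 y.2.2 (s + ((μ y.1 : ℤ) : ℂ))
  let c' : ℝ := c + ∑ i, |((μ i : ℤ) : ℝ)|
  have hre : ∀ (i : Fin r) (s : ℂ), c' < s.re → c < (s + ((μ i : ℤ) : ℂ)).re := by
    intro i s hs
    have h1 : |((μ i : ℤ) : ℝ)| ≤ ∑ i, |((μ i : ℤ) : ℝ)| :=
      Finset.single_le_sum (f := fun i => |((μ i : ℤ) : ℝ)|) (fun j _ => abs_nonneg _) (Finset.mem_univ i)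
    have h2 := neg_abs_le ((μ i : ℤ) : ℝ)
    simp only [c'] at hs
    rw [Complex.add_re, Complex.intCast_re]
    linarith
  have hs1 : ∀ y, ∀ s : ℂ, c' < s.re → LSeriesSummable (a' y) s := fun y s hs =>
    Y456.DP.summable_shift _ _ _ (hc.summable y.2.1.1 y.2.1.2 y.2.2 _ (hre y.1 s hs))
  have hs2 : ∀ y, ∀ s : ℂ, c' < s.re → L' y s = LSeries (a' y) s := by
    intro y s hs
    have h3 := Y456.DP.series_shift (fun n : ℕ => χ y.2.2 (n : ZMod q) * y.2.1.2 (a y.2.1.1 n)) ((μ y.1 : ℤ) : ℂ) s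
    rw [hc.eq_series y.2.1.1 y.2.1.2 y.2.2 _ (hre y.1 s hs) |> fun h => (show L' y s = _ from h)]
    exact h3.symm
  have han : ∀ y, AnalyticOnNhd ℂ (L' y) U := by
    intro y s hs
    exact (hc.analytic y.2.1.1 y.2.1.2 y.2.2 y.1 s hs).comp_of_eq (f := fun z : ℂ => z + ((μ y.1 : ℤ) : ℂ))
      (by fun_prop) rfl
  obtain ⟨B, C, T₀, hC, hT₀, H⟩ := Y124.excNF (h := Fin g) m n d (Y922.ZF.vQ β L' v) K
    (fun g' => Y922.ZF.oneQ g' β hβ0 hβ a' hPP c' hs1 L' hs2 U hc.connected hc.real han v K hK hKU) A ε hε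
  refine ⟨B, C, T₀, fun F _ _ hF ι ξ T hT => ?_⟩
  have hT0 : 0 ≤ T := by linarith
  have hP : Points F ι K T = {x : F | Y120.HtLe F T x ∧ ι x ∈ K} := by
    ext x
    constructor
    · rintro ⟨h1, a, b, hb, hab, hx⟩
      exact ⟨⟨a, b, hb, Y120.house_le F hT0 fun φ => (hab φ).1, Y120.house_le F hT0 fun φ => (hab φ).2, hx⟩, h1⟩
    · rintro ⟨⟨a, b, hb, ha, hb', hx⟩, h1⟩
      exact ⟨h1, a, b, hb, fun φ => ⟨(Y120.house_ge F _ φ).trans ha, (Y120.house_ge F _ φ).trans hb'⟩, hx⟩
  have hval : ∀ (s : ℂ) y, values μ β L v s y = (Y922.ZF.vQ β L' v) s y := by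
    intro s y
    rcases y with l | x
    · rfl
    · simp only [values, Y922.ZF.vQ, L']
      rw [iteratedDeriv_comp_add_const]
  have hsub : Exceptional μ β L v n d F ι ξ K A B T ⊆ Y124.ExcNF n d F ι ξ ((Y922.ZF.vQ β L' v)) K A B T := by
    rintro x ⟨hx, P, hPd, hPc, s₀, hs₀, hs⟩
    refine ⟨fun j => ?_, P, hPd, hPc, s₀, hs₀, ?_⟩
    · have h1 := hx j
      rw [hP] at h1
      exact h1
    · simp only [hval] at hs
      exact hs
  obtain ⟨h1, h2⟩ := H F hF ι ξ T hT
  refine ⟨h1.subset hsub, ?_⟩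
  rw [hP]
  exact le_trans (by exact_mod_cast Set.ncard_le_ncard hsub h1) h2

end Pool.Agent.Results.MP_100fe7_nt.ConjugatesTwistsShifts
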