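import Pool.Agent.Y691.TU.Del

/-!
# Deligne's conjecture on critical values and hypergraphs
-/

set_option autoImplicit false

open CategoryTheory CategoryTheory.Limits AlgebraicGeometry Pool.Agent.Y116.UV
  Pool.Agent.Y101.Th Pool.Agent.Y691.TU

namespace Pool.Agent.Results.MP_100fe7_nt.CubicHypersurfaces

universe v u

/-- **Deligne's conjecture and cubic hypersurfaces.** Let `E` be a number field, `C` the category of
motives for absolute Hodge cycles over `ℚ` with coefficients in `E`, `D` the graded pieces
`gr^W_w H^j_c(X)` as objects of `C`, and `T` the data of Deligne's conjecture, with their known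
properties. Deligne's conjecture is true for all motives in `C` if and only if it is true for all
Tate twists of all direct summands of the pieces of the smooth affine cubic hypersurfaces
`∑_{(i, j, l) ∈ S} x_i y_j z_l = 1` over `ℚ`. For each `n` it is true for all Tate twists of all
direct summands of the cohomology of the smooth projective schemes of dimension at most `n` if and
only if this is true for the hypersurfaces of the sets `S` with `n + 2` variables `z_l`, and if and
only if this is true for the hypersurfaces `t(x, y, z) = 1` for the trilinear forms `t` over `ℚ`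
with a block of at most `n + 2` variables. -/
theorem result {E : Type} [Field E] [NumberField E] {C : Type u} [Category.{v} C] [Abelian C]
    {D : Graded ℚ C} [D.L.IsEquivalence] {T : Values E C} (hk : Resolution ℚ)
    (hC : Semisimple C) (hD : IsGraded D) (hG : ∀ M : C, Gen D M) (hT : IsValues T D) :
    ((∀ M : C, Deligne T M) ↔
      ∀ (a b c : ℕ) (S : Finset (Fin a × Fin b × Fin c)) (w j : ℤ),
        Every D.L (Deligne T) (D.H (tripS ℚ S) w j)) ∧
    ∀ n : ℕ,
      ((∀ X : Sch ℚ, SmProj X → topologicalKrullDim X.left ≤ n → ∀ i,
          Every D.L (Deligne T) (D.H X i i)) ↔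
        ∀ (a b : ℕ) (S : Finset (Fin a × Fin b × Fin (n + 2))) (w j : ℤ),
          Every D.L (Deligne T) (D.H (tripS ℚ S) w j)) ∧
      ((∀ X : Sch ℚ, SmProj X → topologicalKrullDim X.left ≤ n → ∀ i,
          Every D.L (Deligne T) (D.H X i i)) ↔
        ∀ (a b c : ℕ) (t : Fin a → Fin b → Fin c → ℚ), (a ≤ n + 2 ∨ b ≤ n + 2 ∨ c ≤ n + 2) →
          ∀ w j, Every D.L (Deligne T) (D.H (hypS t) w j)) :=
  ⟨every_frac isFrac_rat hk hC hD hG (additive_deligne hT) (deligne_unit hT), fun n =>
    ⟨every_dim_frac isFrac_rat hk hC hD (additive_deligne hT) (deligne_unit hT) n,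
      every_dim hk hC hD (additive_deligne hT) (deligne_unit hT) n⟩⟩

end Pool.Agent.Results.MP_100fe7_nt.CubicHypersurfaces
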