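import Pool.Agent.Y144.DL.Equi

/-!
# Deligne's conjecture for Artin twists over CM fields and their odd extensions is equivalent to a weak
# statement on ABELIAN twists

`F / ℚ` is a finite Galois extension with group `G` and complex conjugation `c`. `N` is a normal subgroup of
odd order such that `c` is central modulo `N`: the field `F^N` is totally real (`c = 1`) or CM, and `F` has
odd degree over it. `Z` is any abelian normal subgroup of `G`. Examples: `F` CM or totally real (`N = 1`,
`Z = ⟨c⟩`), with any, also nonsolvable, group; `F = ℚ(ζ_q, a^(1/q))`, `q` odd (`N = Z = Gal(F/ℚ(ζ_q))`); any `F` of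
degree `2` times an odd number. `Fr p ∈ G` is a Frobenius element at `p`. `M` is (the family of Frobenius traces
of) a motive over `ℚ` with coefficients in `K`; the traces at the primes ramified in `F` are set equal to zero,
which changes the values by Euler factors in `K`. `E / K` is an algebraic extension which contains the roots of
unity of order `|G|`. If `F` is not real, there is an odd Dirichlet character which factors through `G` (for
example `F` contains an imaginary quadratic field). For a function `θ` on `G` a term of `LAt M Fr θ m` is
`L(s, M ⊗ θ)`: for every embedding of the coefficients, a meromorphic function on `ℂ` with the Euler product of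
`M ⊗ θ` and holomorphic and nonzero at `m`. `A.δ χ` is the period of the Artin motive `χ`, and `r = d^±(M)`.
-/

set_option autoImplicit false

open Pool.Agent.Y144.DL

/-- The following two statements are EQUIVALENT.

(A) (`DeligneFor`) Deligne's conjecture at `m` for ALL Artin twists: for all fields `K'` between `K` and `E` and all
representations of `G` over `K'` (character `θ`, `a` and `b` the dimensions of the eigenspaces of complex
conjugation) `L(s, M ⊗ θ)` has a meromorphic continuation, holomorphic and nonzero at `m`, and
`L(m, M ⊗ θ) ∼ c_P ^ a c_M ^ b δ(θ) ^ r` up to a factor in the field of coefficients `K'`.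

(B) (`AbelianTwists`) For each subfield `k = F^H` of `F^Z` (`Z ≤ H`) over which `F` is SOLVABLE and each character `χ`
of `Gal(F/k)`
* the function `L(s, M_k ⊗ χ) = L(s, M ⊗ Ind_H χ)` of the ABELIAN twist has a meromorphic continuation which is
  holomorphic and nonzero at `m`;
* relative rationality: for characters of `Gal(F/k)` with the same signs at the real places of `k` the values at
  `m` have the quotient predicted by Deligne's conjecture, up to a factor in the large field `E` (no relation
  between the periods over different fields);
and, up to a factor in `E`, Deligne's conjecture holds at `m` for `M` and, if `c ≠ 1`, for ONE twist `M ⊗ ψ` by an odd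
Dirichlet character.

For `N = 1` and `Z = ⟨c⟩` only TOTALLY REAL `k` are used in (B). If `N` is abelian and `Z = N`, then only totally real
and CM fields `k ⊆ F^N` are used. -/
theorem Pool.Agent.Results.MP_100fe7_nt.OddExtensionsOfCMFields.result
    {K E : Type} [Field K] [CharZero K] [Field E] [Algebra K E] [Algebra.IsAlgebraic K E]
    {G : Type} [Group G] [Finite G]
    (hE : HasEnoughRootsOfUnity E (Nat.card G)) (c : G) (N Z : Subgroup G) (hN : N.Normal)
    (hodd : Odd (Nat.card N)) (hcN : ∀ g : G, g * c * g⁻¹ * c⁻¹ ∈ N) (hcc : c * c = 1)
    (hZ : Z.Normal) (hZab : ∀ x ∈ Z, ∀ y ∈ Z, x * y = y * x)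
    (hψ : c ≠ 1 → ∃ ψ : G →* Eˣ, ψ c = -1)
    (M : FrobData K) (Fr : Nat.Primes → G) (m : ℂ) (A : ArtinPeriods E G) (r : ℕ)
    (cP cM : (K →+* ℂ) → ℂ) :
    DeligneFor E ⊥ c M Fr m A r cP cM ↔
      Nonempty (AbelianTwists (fun H : Subgroup G => Group.IsSolvable H ∧ Z ≤ H) c (M.map E) Fr m A r
        (lft E cP) (lft E cM)) :=
  equiv_Z hE hN hodd hcN hcc hZ hZab hψ M Fr m A r cP cM
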